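import Mathlib
import Pool.Agent.Lead.EvDefs
import Pool.Agent.Helper3.QGr.Lin

/-!
# Project EV (MP_d4e2f9_lc): forced sets and products of `q`-geometries

MAIN IDEA.  `G` acts on the finite set `V`.  `Fz K G V h` is the smallest family of subsets of `V` which
contains `∅`, is closed under subsets and translates, and under `A ↦ A ∪ {v | the H-orbit of v has at
least h elements}` for the subgroups `H` of the class `K` which leave `A` invariant.  `V` is `Forced` if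
`V` is in the family; then a decision tree of a non-constant monotone `G`-invariant function has depth at
least `h` (BND).  Products (PRD, PIP) and fibrations (FIB) give the forced sets of geometries.

Deliver `Pool/Agent/<Seat>/EV/<NAME>.lean`, namespace `Pool.Agent.<Seat>.EV.<NAME>`, `theorem t : <NAME>`
(with hypotheses only if the docstring allows them).
-/

set_option autoImplicit false

namespace Pool.Agent.Helper43.EV

open Module Pool.Agent.Lead.Ev
open Pool.Agent.Helper3.QGr (prj)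

/-! ## Classes of groups -/

/-- A class of subgroups of groups. -/
abbrev Cls : Type 1 := ∀ (G : Type) [Group G], Subgroup G → Prop

/-- `p`-groups -/
def PG (p : ℕ) : Cls := fun _ _ H => ∀ σ ∈ H, ∃ k : ℕ, σ ^ (p ^ k) = 1

/-- `H` has a normal `p`-subgroup `P` such that `H / P` is an `r`-group -/
def PR (p r : ℕ) : Cls := fun G _ H => ∃ P : Subgroup G, P ≤ H ∧
  (∀ σ ∈ H, ∀ τ ∈ P, σ * τ * σ⁻¹ ∈ P) ∧ (∀ σ ∈ P, ∃ k : ℕ, σ ^ (p ^ k) = 1) ∧
  ∀ σ ∈ H, ∃ k : ℕ, σ ^ (r ^ k) ∈ P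

/-- cyclic groups -/
def CY : Cls := fun _ _ H => ∃ σ ∈ H, ∀ τ ∈ H, ∃ k : ℤ, τ * σ ^ k = 1

/-- Oliver's class: `P` is a normal `p`-subgroup of `C`, `C` is normal in `H`, `C / P` is cyclic, `H / C`
is an `r`-group -/
def OL (p r : ℕ) : Cls := fun G _ H => ∃ P C : Subgroup G, P ≤ C ∧ C ≤ H ∧
  (∀ σ ∈ H, ∀ τ ∈ C, σ * τ * σ⁻¹ ∈ C) ∧ (∀ σ ∈ C, ∀ τ ∈ P, σ * τ * σ⁻¹ ∈ P) ∧
  (∀ σ ∈ H, ∃ k : ℕ, σ ^ (r ^ k) ∈ C) ∧ (∃ σ ∈ C, ∀ τ ∈ C, ∃ k : ℤ, τ * σ ^ k ∈ P) ∧
  (∀ σ ∈ P, ∃ k : ℕ, σ ^ (p ^ k) = 1)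

/-- closed under products and images, contains the trivial groups -/
def GoodCls (K : Cls) : Prop :=
  (∀ (G₁ G₂ : Type) [Group G₁] [Group G₂] (H₁ : Subgroup G₁) (H₂ : Subgroup G₂),
    K G₁ H₁ → K G₂ H₂ → K (G₁ × G₂) (H₁.prod H₂)) ∧
  (∀ (G G' : Type) [Group G] [Group G'] (φ : G →* G') (H : Subgroup G), K G H → K G' (H.map φ)) ∧
  (∀ (G : Type) [Group G], K G ⊥)

/-! ## Forced sets -/

/-- the family of forced sets -/
inductive Fz (K : Cls) (G V : Type) [Group G] [MulAction G V] (h : ℕ) : Set V → Prop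
  | empty : Fz K G V h ∅
  | sub {A B : Set V} : A ⊆ B → Fz K G V h B → Fz K G V h A
  | tr (g : G) {A : Set V} : Fz K G V h A → Fz K G V h ((fun v => g • v) '' A)
  | ext (H : Subgroup G) {A : Set V} : K G H → (∀ g ∈ H, ∀ v ∈ A, g • v ∈ A) → Fz K G V h A →
      Fz K G V h (A ∪ {v | h ≤ (MulAction.orbit H v).ncard})

/-- `V` is forced -/
def Forced (K : Cls) (G V : Type) [Group G] [MulAction G V] (h : ℕ) : Prop := Fz K G V h Set.univ

/-- the product action -/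
instance prodAct (G₁ G₂ V₁ V₂ : Type) [Group G₁] [Group G₂] [MulAction G₁ V₁] [MulAction G₂ V₂] :
    MulAction (G₁ × G₂) (V₁ × V₂) where
  smul g v := (g.1 • v.1, g.2 • v.2)
  one_smul v := by
    show ((1 : G₁) • v.1, (1 : G₂) • v.2) = v
    rw [one_smul, one_smul]
  mul_smul g g' v := by
    show ((g.1 * g'.1) • v.1, (g.2 * g'.2) • v.2) = (g.1 • g'.1 • v.1, g.2 • g'.2 • v.2)
    rw [mul_smul, mul_smul]

/-! ## General lemmas -/

/-- **BND**: the bound for decision trees. No hypotheses.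
PROOF. Suppose `t.depth < h`. Let `F A := f (indicator of A)` for `A : Finset V`; `F ∅ = false`, `F univ = true` (monotone and not constant). CLAIM: `Fz .. A → F A = false` (for sets `A`; finite, use `A.toFinset`, classical). Induction: `empty` clear, `sub` monotone, `tr` by invariance (`F (g A) = F A`, the function `v ↦ x (g⁻¹ • v)` is the indicator of `g A`). `ext H A`: let `B ⊇ A` be a maximal `H`-invariant set with `F B = false` (exists, finite). By `Pool.Agent.Lead.Ev.main_lemma` (in `Lead/EvGroup.lean`, used in the same way in the proof of `quad_bound` in `Lead/EvFinal.lean`; the subgroups `H, C, P` of `Equiv.Perm V` are the images under `MulAction.toPermHom G V`, `fm σ B` is the image of `B`) `|Bᶜ| ≤ t.depth < h`. If `v ∉ B` then the `H`-orbit of `v` is in `Bᶜ` and has less than `h` elements. So `A ∪ {v | h ≤ |H v|} ⊆ B`. Finally `A = univ` gives a contradiction. -/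
def BND : Prop :=
  ∀ (p r : ℕ), p.Prime → r.Prime → ∀ (G V : Type) [Group G] [MulAction G V] [Fintype V]
    [DecidableEq V] (h : ℕ), Forced (OL p r) G V h → ∀ f : (V → Bool) → Bool, Monotone f →
    (∃ x y, f x ≠ f y) → (∀ (g : G) (x : V → Bool), f (fun v => x (g • v)) = f x) →
    ∀ t : DTree V, (∀ x, t.eval x = f x) → h ≤ t.depth

/-- **PRD**: products. No hypotheses.
PROOF. Write `Fz` for `Fz K (G₁ × G₂) (V₁ × V₂) (h₁ * h₂)`.
CLAIM. Let `H₂` be a subgroup of `G₂` in `K₂`, `A ⊆ V₁ × V₂` with `Fz A`, invariant under all `(g, 1)`, `g ∈ G₁`, and all `(1, g)`, `g ∈ H₂`. Then `Fz (A ∪ {v | h₂ ≤ |H₂ v.2|})`. PROOF of the claim: show `Fz (A ∪ {v | v.1 ∈ A₁ ∧ h₂ ≤ |H₂ v.2|})` for all `A₁` with `Fz K₁ G₁ V₁ h₁ A₁`, by induction on the latter. `empty`: `A`. `sub`: `sub`. `tr g`: translate by `(g, 1)`, `A` is invariant, so the new set is contained in the translate. `ext H₁`: the set is invariant under `H₁ × H₂`, and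 if `h₁ ≤ |H₁ v.1|` and `h₂ ≤ |H₂ v.2|` then the orbit of `v` under `H₁.prod H₂` is the product of the two orbits and has at least `h₁ h₂` elements (`Set.ncard_prod`; `V₁`, `V₂` finite); use `ext` and `sub`. For `A₁ = univ` this is the claim.
Now show `Fz {v | v.2 ∈ A₂}` for all `A₂` with `Fz K₂ G₂ V₂ h₂ A₂`, by induction: `empty`, `sub`, `tr` (translate by `(1, g)`) clear, `ext H₂`: the claim with `A = {v | v.2 ∈ A₂}`. -/
def PRD : Prop :=
  ∀ (K₁ K₂ K : Cls), (∀ (G₁ G₂ : Type) [Group G₁] [Group G₂] (H₁ : Subgroup G₁)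
      (H₂ : Subgroup G₂), K₁ G₁ H₁ → K₂ G₂ H₂ → K (G₁ × G₂) (H₁.prod H₂)) →
    ∀ (G₁ G₂ V₁ V₂ : Type) [Group G₁] [Group G₂] [MulAction G₁ V₁] [MulAction G₂ V₂] [Finite V₁]
      [Finite V₂] (h₁ h₂ : ℕ), Forced K₁ G₁ V₁ h₁ → Forced K₂ G₂ V₂ h₂ →
      Forced K (G₁ × G₂) (V₁ × V₂) (h₁ * h₂)

/-- **EQV**: transport. No hypotheses.
PROOF. Show `Fz K' G' V' h (e '' A)` for all `A` with `Fz K G V h A`, by induction: `tr g`: translate by `φ g`; `ext H`: use `H.map φ`; the orbit of `e v` under `H.map φ` is the image of the orbit of `v` under `H`, `Set.ncard_image_of_injective`. `e '' univ = univ`. -/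
def EQV : Prop :=
  ∀ (K K' : Cls) (G V G' V' : Type) [Group G] [MulAction G V] [Group G'] [MulAction G' V']
    (φ : G →* G') (e : V ≃ V'), (∀ H : Subgroup G, K G H → K' G' (H.map φ)) →
    (∀ (g : G) (v : V), e (g • v) = φ g • e v) → ∀ h : ℕ, Forced K G V h → Forced K' G' V' h

/-- **PIP**: finite products. Hypotheses allowed: PRD, EQV.
PROOF. Induction on the finite type `I` (`Finite.induction_empty_option`, for all families). `I ≃ J`: EQV with `MulEquiv.piCongrLeft`/`Equiv.piCongrLeft` (or write the maps by hand: reindexing along `e : I ≃ J`). Empty `I`: `∀ i, V i` has one element, the product is `1`: `ext ⊥` applied to `∅`: all orbits have `1 ≥ 1` element. `Option I`: `Equiv.piOptionEquivProd : (∀ i : Option I, V i) ≃ V none × ∀ i, V (some i)`, PRD and EQV, `Fintype.prod_option`. -/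
def PIP : Prop :=
  ∀ K : Cls, GoodCls K → ∀ (I : Type) [Fintype I] (G V : I → Type) [∀ i, Group (G i)]
    [∀ i, MulAction (G i) (V i)] [∀ i, Finite (V i)] (h : I → ℕ),
    (∀ i, Forced K (G i) (V i) (h i)) → Forced K (∀ i, G i) (∀ i, V i) (∏ i, h i)

/-- **FIB**: fibrations. No hypotheses.
PROOF. For `Ab ⊆ Vb` let `P(Ab) := {v | ∃ hv : v ∈ O, π ⟨v, hv⟩ ∈ Ab}`. Show `Fz K G V (ν * hb) (A ∪ P(Ab))` for all `Ab` with `Fz K Gb Vb hb Ab`, by induction. `empty`, `sub` clear. `tr g`: translate by `s g` (`A ⊆ s g A` as `A` is invariant under `s g⁻¹`; `π (s g⁻¹ v) = g⁻¹ π v`). `ext H`: the group `N ⊔ H.map s` is in the class and leaves `A ∪ P(Ab)` invariant (`Subgroup.closure_induction` or `Subgroup.sup_eq_closure`, or: the elements which map the set into itself together with their inverses form a subgroup). If `v ∈ O` and `hb ≤ |H π(v)|` then the orbit `Ω` of `v` contains, for every point `w` of `H π(v)`, a point `v_w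 = s(g) v` of `O` with `π(v_w) = w` and its `N`-orbit, which has at least `ν` elements, all in `O` with image `w`; these `N`-orbits are disjoint, so `|Ω| ≥ ν hb`. At the end `Ab = univ`, `P(univ) = O`. -/
def FIB : Prop :=
  ∀ (K : Cls) (G V Gb Vb : Type) [Group G] [MulAction G V] [Finite V] [Group Gb]
    [MulAction Gb Vb] [Finite Vb] (N : Subgroup G) (s : Gb →* G) (O : Set V) (π : O → Vb)
    (ν hb : ℕ),
    (∀ H : Subgroup Gb, K Gb H → K G (N ⊔ H.map s)) →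
    (∀ g ∈ N, ∀ v : O, ∃ hv : g • (v : V) ∈ O, π ⟨g • (v : V), hv⟩ = π v) →
    (∀ (g : Gb) (v : O), ∃ hv : s g • (v : V) ∈ O, π ⟨s g • (v : V), hv⟩ = g • π v) →
    (∀ v ∈ O, ν ≤ (MulAction.orbit N v).ncard) → Forced K Gb Vb hb →
    ∀ A : Set V, (∀ g ∈ N, ∀ v ∈ A, g • v ∈ A) → (∀ g : Gb, ∀ v ∈ A, s g • v ∈ A) →
      Fz K G V (ν * hb) A → Fz K G V (ν * hb) (A ∪ O)

/-- **CLS**: the classes. No hypotheses.
PROOF. (1) products: `P₁.prod P₂`, exponents `k₁ + k₂`; images: `P.map φ`; trivial group: `P = ⊥`. (2) `P = H`, `k = 0`. (3) `P = ⊥`. (4) `P := P₁.prod ⊥`, `C := P₁.prod H₂`, generator `(1, σ)`. (5) `P = P`, `C = P`. (6) every element of `N ⊔ H.map s` is `n * s(g)` with `n ∈ N`, `g ∈ H` (`Subgroup.mem_sup_of_normal_left`-type, or: these elements form a subgroup as `s(Gb)` normalises `N`); `(n * s(g)) ^ k = n' * s(g ^ k)` with `n' ∈ N` (induction); take `k = p ^ j` with `g ^ k = 1`, then `n' ^ (p ^ i) = 1`,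 exponent `p ^ (j + i)`. -/
def CLS : Prop :=
  ∀ p r : ℕ, p.Prime → r.Prime → GoodCls (PR p r) ∧
    (∀ (G : Type) [Group G] (H : Subgroup G), PG p G H → PR p r G H) ∧
    (∀ (G : Type) [Group G] (H : Subgroup G), PG r G H → PR p r G H) ∧
    (∀ (G₁ G₂ : Type) [Group G₁] [Group G₂] (H₁ : Subgroup G₁) (H₂ : Subgroup G₂),
      PR p r G₁ H₁ → CY G₂ H₂ → OL p r (G₁ × G₂) (H₁.prod H₂)) ∧
    (∀ (G : Type) [Group G] (H : Subgroup G), PR p r G H → OL p r G H) ∧
    (∀ (G Gb : Type) [Group G] [Group Gb] (N : Subgroup G) (s : Gb →* G) (H : Subgroup Gb),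
      (∀ g : Gb, ∀ n ∈ N, s g * n * (s g)⁻¹ ∈ N) → PG p G N → PG p Gb H →
      PG p G (N ⊔ H.map s))

/-! ## The geometries -/

section geometry

variable (F V : Type) [Field F] [AddCommGroup V] [Module F V]

/-- the pairs `A ≤ B` of subspaces of dimensions `a`, `b` -/
abbrev Fl (a b : ℕ) : Type :=
  {X : Submodule F V × Submodule F V // X.1 ≤ X.2 ∧ finrank F X.1 = a ∧ finrank F X.2 = b}

/-- the group generated by the transvections `x ↦ x + φ(x) v`, `φ v = 0` -/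
def TG : Subgroup (V ≃ₗ[F] V) :=
  Subgroup.closure {g | ∃ (φ : Dual F V) (v : V) (h : φ v = 0), g = LinearEquiv.transvection h}

variable {F V}

/-- the action on the pairs -/
instance flAct (a b : ℕ) : MulAction (V ≃ₗ[F] V) (Fl F V a b) where
  smul g X := ⟨(X.1.1.map (g : V →ₗ[F] V), X.1.2.map (g : V →ₗ[F] V)),
    Submodule.map_mono X.2.1, by rw [LinearEquiv.finrank_map_eq]; exact X.2.2.1,
    by rw [LinearEquiv.finrank_map_eq]; exact X.2.2.2⟩
  one_smul X := by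
    apply Subtype.ext
    apply Prod.ext
    · exact Submodule.map_id X.1.1
    · exact Submodule.map_id X.1.2
  mul_smul g g' X := by
    apply Subtype.ext
    apply Prod.ext
    · exact Submodule.map_comp (g' : V →ₗ[F] V) (g : V →ₗ[F] V) X.1.1
    · exact Submodule.map_comp (g' : V →ₗ[F] V) (g : V →ₗ[F] V) X.1.2

variable [FiniteDimensional F V]

/-- `g x = x + φ(prj x) z` -/
def IsNA (ψ : Dual F V) (z : V) (hz : ψ z = 1) (g : TG F V) : Prop :=
  ∃ φ : Dual F (LinearMap.ker ψ), ∀ x : V, (g : V ≃ₗ[F] V) x = x + φ (prj ψ z hz x) • z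

/-- `g x = x + ψ(x) w` -/
def IsNB (ψ : Dual F V) (g : TG F V) : Prop :=
  ∃ w : LinearMap.ker ψ, ∀ x : V, (g : V ≃ₗ[F] V) x = x + ψ x • (w : V)

/-- `s g x = g (prj x) + ψ(x) z` -/
def IsS (ψ : Dual F V) (z : V) (hz : ψ z = 1) (s : TG F (LinearMap.ker ψ) →* TG F V) : Prop :=
  ∀ (g : TG F (LinearMap.ker ψ)) (x : V), (s g : V ≃ₗ[F] V) x =
    (((g : LinearMap.ker ψ ≃ₗ[F] LinearMap.ker ψ) (prj ψ z hz x) : LinearMap.ker ψ) : V) + ψ x • z

end geometry

/-- **LIN**: the groups. No hypotheses. (`prj`, `eA`, `eB`, `lft` and their lemmas are in `Pool/Agent/Helper3/QGr/Lin.lean`.)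
PROOF. For `g : W ≃ₗ W`, `W = ker ψ`, let `E g : V ≃ₗ V`, `E g x = g (prj x) + ψ(x) z`, inverse `E g⁻¹` (`x = prj x + ψ(x) z`, `ψ (E g x) = ψ x`, `prj (E g x) = g (prj x)`); `E` is a homomorphism, `E (transvection φ w) = transvection (φ ∘ prj) w` (`lft`), so `E` maps `TG F W` into `TG F V` (`Subgroup.closure_le`/`MonoidHom` on closures): `s`. `NA := {g | IsNA g}`, `NB := {g | IsNB g}` are subgroups: `(φ, φ') ↦ φ + φ'` (`prj z = 0`), `(w, w') ↦ w + w'` (`ψ w = 0`), inverse `-φ`, `-w`. `g ^ p = 1` as `g ^ n x = x + n φ(prj x) z` and `p = 0` in `F`. Every `φ` and `w` occurs: `eA`, `eB` are transvections. `s g * n * (s g)⁻¹` has the functional `φ ∘ g⁻¹`, the vector `g w`. -/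
def LIN : Prop :=
  ∀ (F : Type) [Field F] [Finite F] (p : ℕ) [Fact p.Prime] [CharP F p] (V : Type)
    [AddCommGroup V] [Module F V] [FiniteDimensional F V] (ψ : Dual F V) (z : V) (hz : ψ z = 1),
    ∃ (NA NB : Subgroup (TG F V)) (s : TG F (LinearMap.ker ψ) →* TG F V),
      (∀ g, g ∈ NA ↔ IsNA ψ z hz g) ∧ (∀ g, g ∈ NB ↔ IsNB ψ g) ∧ IsS ψ z hz s ∧
      (∀ φ : Dual F (LinearMap.ker ψ), ∃ g : TG F V,
        ∀ x : V, (g : V ≃ₗ[F] V) x = x + φ (prj ψ z hz x) • z) ∧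
      (∀ w : LinearMap.ker ψ, ∃ g : TG F V, ∀ x : V, (g : V ≃ₗ[F] V) x = x + ψ x • (w : V)) ∧
      PG p _ NA ∧ PG p _ NB ∧ (∀ g, ∀ n ∈ NA, s g * n * (s g)⁻¹ ∈ NA) ∧
      (∀ g, ∀ n ∈ NB, s g * n * (s g)⁻¹ ∈ NB)

/-- **ORA**: orbits of `NA`. No hypotheses.
PROOF. `X = (A, B)`, `z ∉ B`. For `l : Dual F B` there is `φ : Dual F (ker ψ)` with `φ (prj x) = l x` for `x ∈ B` (`prj` is injective on `B` as its kernel is `F z`; extend from the image, `LinearMap.exists_extend` or `Submodule.exists_isCompl`), so by the last hypothesis `g_l ∈ NA` with `g_l x = x + l(x) z` on `B`. `l ↦ g_l X` is injective: if `B' = {x + l x z | x ∈ B} = {x + l' x z | x ∈ B}` then `x + l x z = x' + l' x' z`, `x - x' ∈ F z ∩ B = 0`, `l x = l' x`. So the orbit has at least `|Dual F B| = q ^ b` elements (`Module.natCard_eq_pow_finrank`). The orbit is finite (`Fl` is finite: `instFiniteSub` in `Helper3.QGr`). -/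
def ORA : Prop :=
  ∀ (F : Type) [Field F] [Finite F] (V : Type) [AddCommGroup V] [Module F V]
    [FiniteDimensional F V] (ψ : Dual F V) (z : V) (hz : ψ z = 1) (NA : Subgroup (TG F V)),
    (∀ g, g ∈ NA ↔ IsNA ψ z hz g) →
    (∀ φ : Dual F (LinearMap.ker ψ), ∃ g : TG F V,
        ∀ x : V, (g : V ≃ₗ[F] V) x = x + φ (prj ψ z hz x) • z) →
    ∀ (a b : ℕ) (X : Fl F V a b), z ∉ X.1.2 →
      Nat.card F ^ b ≤ (MulAction.orbit NA X).ncard

/-- **ORB**: orbits of `NB`. No hypotheses.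
PROOF. `X = (A, B)`, `A ⊄ ker ψ`, `A' := A ∩ ker ψ` (`comap` along the inclusion of `ker ψ`) has dimension `a - 1` (`finrank_comap`). Take `x₀ ∈ A` with `ψ x₀ = 1`. For `c` in the quotient `ker ψ / A'` let `w = Quotient.out c` and `g_c ∈ NB` with `g_c x = x + ψ(x) w`. If `g_c A = g_d A` then `x₀ + w_c ∈ g_d A`, `x₀ + w_c = x + ψ(x) w_d` with `x ∈ A`, `ψ x = 1`, so `w_c - w_d = x - x₀ ∈ A'`, `c = d`. So the orbit has at least `|ker ψ / A'| = q ^ ((m - 1) - (a - 1)) = q ^ (m - a)` elements (`1 ≤ a` and `a ≤ m`; `finrank_ker_add`, `Submodule.finrank_quotient_add_finrank`). -/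
def ORB : Prop :=
  ∀ (F : Type) [Field F] [Finite F] (V : Type) [AddCommGroup V] [Module F V]
    [FiniteDimensional F V] (ψ : Dual F V) (z : V) (_ : ψ z = 1) (NB : Subgroup (TG F V)),
    (∀ g, g ∈ NB ↔ IsNB ψ g) →
    (∀ w : LinearMap.ker ψ, ∃ g : TG F V, ∀ x : V, (g : V ≃ₗ[F] V) x = x + ψ x • (w : V)) →
    ∀ (a b : ℕ) (X : Fl F V a b), ¬ X.1.1 ≤ LinearMap.ker ψ →
      Nat.card F ^ (finrank F V - a) ≤ (MulAction.orbit NB X).ncard

/-- **PIA**: the projection from `z`. No hypotheses.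
PROOF. `π (A, B) := (A.map prj, B.map prj)`; dimensions: `finrank_map_prj` (`z ∉ B`, so `z ∉ A`). `g ∈ NA` fixes `z` (`prj z = 0`), so `z ∉ g B`, and `prj (g x) = prj x`; `s g z = z` and `prj (s g x) = g (prj x)`. -/
def PIA : Prop :=
  ∀ (F : Type) [Field F] [Finite F] (V : Type) [AddCommGroup V] [Module F V]
    [FiniteDimensional F V] (ψ : Dual F V) (z : V) (hz : ψ z = 1)
    (s : TG F (LinearMap.ker ψ) →* TG F V), IsS ψ z hz s → ∀ a b : ℕ,
    ∃ π : ({X : Fl F V a b | z ∉ X.1.2} : Set (Fl F V a b)) → Fl F (LinearMap.ker ψ) a b,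
      (∀ g : TG F V, IsNA ψ z hz g → ∀ v : ({X : Fl F V a b | z ∉ X.1.2} : Set (Fl F V a b)),
        ∃ hv : g • (v : Fl F V a b) ∈ {X : Fl F V a b | z ∉ X.1.2},
          π ⟨g • (v : Fl F V a b), hv⟩ = π v) ∧
      (∀ g : TG F (LinearMap.ker ψ), ∀ v : ({X : Fl F V a b | z ∉ X.1.2} : Set (Fl F V a b)),
        ∃ hv : s g • (v : Fl F V a b) ∈ {X : Fl F V a b | z ∉ X.1.2},
          π ⟨s g • (v : Fl F V a b), hv⟩ = g • π v)

/-- **PIB**: the intersection with `ker ψ`. No hypotheses.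
PROOF. `π (A, B) := (A.comap ι, B.comap ι)`, `ι` the inclusion of `ker ψ`; dimensions `a`, `b`: `finrank_comap` (`A ⊄ ker ψ`, so `B ⊄ ker ψ`). `g ∈ NB`: `ψ (g x) = ψ x`, and `g x = x` for `x ∈ ker ψ`; `s g`: `ψ (s g x) = ψ x`, `s g x = g x` for `x ∈ ker ψ`. -/
def PIB : Prop :=
  ∀ (F : Type) [Field F] [Finite F] (V : Type) [AddCommGroup V] [Module F V]
    [FiniteDimensional F V] (ψ : Dual F V) (z : V) (hz : ψ z = 1)
    (s : TG F (LinearMap.ker ψ) →* TG F V), IsS ψ z hz s → ∀ a b : ℕ,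
    ∃ π : ({X : Fl F V (a + 1) (b + 1) | ¬ X.1.1 ≤ LinearMap.ker ψ} :
        Set (Fl F V (a + 1) (b + 1))) → Fl F (LinearMap.ker ψ) a b,
      (∀ g : TG F V, IsNB ψ g → ∀ v : ({X : Fl F V (a + 1) (b + 1) | ¬ X.1.1 ≤ LinearMap.ker ψ} :
          Set (Fl F V (a + 1) (b + 1))),
        ∃ hv : g • (v : Fl F V (a + 1) (b + 1)) ∈ {X : Fl F V (a + 1) (b + 1) |
            ¬ X.1.1 ≤ LinearMap.ker ψ},
          π ⟨g • (v : Fl F V (a + 1) (b + 1)), hv⟩ = π v) ∧
      (∀ g : TG F (LinearMap.ker ψ), ∀ v : ({X : Fl F V (a + 1) (b + 1) |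
          ¬ X.1.1 ≤ LinearMap.ker ψ} : Set (Fl F V (a + 1) (b + 1))),
        ∃ hv : s g • (v : Fl F V (a + 1) (b + 1)) ∈ {X : Fl F V (a + 1) (b + 1) |
            ¬ X.1.1 ≤ LinearMap.ker ψ},
          π ⟨s g • (v : Fl F V (a + 1) (b + 1)), hv⟩ = g • π v)

/-- **STA**: step A. Hypotheses allowed: FIB, CLS, LIN, ORA, PIA.
PROOF. FIB with `N = NA`, `s`, `O = {X | z ∉ X.1.2}`, `π` from PIA, `ν = q ^ b`; the class condition is the last part of CLS. `g ∈ NA` and `s g` fix `z` (`prj z = 0`, `ψ z = 1`), so they leave `S` invariant. -/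
def STA : Prop :=
  ∀ (F : Type) [Field F] [Finite F] (p : ℕ) [Fact p.Prime] [CharP F p] (V : Type)
    [AddCommGroup V] [Module F V] [FiniteDimensional F V] (ψ : Dual F V) (z : V), ψ z = 1 →
    ∀ a b h : ℕ, Forced (PG p) (TG F (LinearMap.ker ψ)) (Fl F (LinearMap.ker ψ) a b) h →
    ∀ S : Set (Fl F V a b), (∀ g : TG F V, (g : V ≃ₗ[F] V) z = z → ∀ X ∈ S, g • X ∈ S) →
      Fz (PG p) (TG F V) (Fl F V a b) (Nat.card F ^ b * h) S →
      Fz (PG p) (TG F V) (Fl F V a b) (Nat.card F ^ b * h) (S ∪ {X | z ∉ X.1.2})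

/-- **STB**: step B. Hypotheses allowed: FIB, CLS, LIN, ORB, PIB.
PROOF. FIB with `N = NB`, `s`, `O = {X | ¬ X.1.1 ≤ ker ψ}`, `π` from PIB, `ν = q ^ (m - (a + 1))`. `ψ (g x) = ψ x` for `g ∈ NB` and for `s g`. -/
def STB : Prop :=
  ∀ (F : Type) [Field F] [Finite F] (p : ℕ) [Fact p.Prime] [CharP F p] (V : Type)
    [AddCommGroup V] [Module F V] [FiniteDimensional F V] (ψ : Dual F V) (z : V), ψ z = 1 →
    ∀ a b h : ℕ, Forced (PG p) (TG F (LinearMap.ker ψ)) (Fl F (LinearMap.ker ψ) a b) h →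
    ∀ S : Set (Fl F V (a + 1) (b + 1)),
      (∀ g : TG F V, (∀ x, ψ ((g : V ≃ₗ[F] V) x) = ψ x) → ∀ X ∈ S, g • X ∈ S) →
      Fz (PG p) (TG F V) (Fl F V (a + 1) (b + 1)) (Nat.card F ^ (finrank F V - (a + 1)) * h) S →
      Fz (PG p) (TG F V) (Fl F V (a + 1) (b + 1)) (Nat.card F ^ (finrank F V - (a + 1)) * h)
        (S ∪ {X | ¬ X.1.1 ≤ LinearMap.ker ψ})

/-- **GRS**: the geometries are forced. Hypotheses allowed: STA, STB.
PROOF. `q = |F|`, `m = finrank V`, `d(m, a, b) = b (m - b) + a (b - a)`. Induction on `m` (for all `V`, `a`, `b`). TRIVIAL CASES: (`a = b = 0` or `a = b = m`; then `d = 0` and `Fl` has at most one element: `A = B = ⊥` or `⊤`): `ext ⊥` on `∅`, orbits have `≥ 1 = q ^ 0` elements. In the other cases `m ≥ 1`; for every `ψ, z` with `ψ z = 1` the kernel has dimension `m - 1`.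
CASE 1: `a = b = k`, `0 < k < m`. Take `z`, `ψ` with `ψ z = 1`. STB (with `k - 1`, `k - 1`; `d(m-1, k-1, k-1) + (m - k) = k (m - k)`) on `∅`: `{¬ X.1.1 ≤ ker ψ}` is in `Fz`. `S := {X | z ∈ X.1.2}` is contained in it (`A = B` as `A ≤ B` and the dimensions are equal; `ψ z = 1`). STA (`k ≤ m - 1`; `d(m-1, k, k) + k = k (m - k)`) on `S`: `S ∪ {z ∉ X.1.2} = univ`.
CASE 2: `b = a + 1`, `1 ≤ a`, `b < m`. `d(m-1, a, b) + b = d(m, a, b) = d(m-1, a-1, b-1) + (m - a) = b (m - a) - 1`; write `Fz` for this threshold. STB with `(a-1, b-1)` and STA with `(a, b)` are available for all `ψ`, `z` with `ψ z = 1`. (i) `{¬ A ≤ ker ψ}` in `Fz` for all `ψ ≠ 0` (STB on `∅`). (ii) `{z ∈ A}` in `Fz` for all `z ≠ 0` (take `ψ` with `ψ z = 1`; `z ∈ A` implies `¬ A ≤ ker ψ`). (iii) STA: `{z ∈ A} ∪ {z ∉ B}` in `Fz` for all `z ≠ 0`. (iv) for `ψ ≠ 0` take `z ≠ 0` in `ker ψ` (`m ≥ 2`): `{A ≤ ker ψ, ¬ B ≤ ker ψ} ⊆ {z ∈ A} ∪ {z ∉ B}`: if `z ∈ B`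 then `z ∈ B ∩ ker ψ = A` (`A ≤ B ∩ ker ψ < B`, dimensions). (v) STB on this set: `{¬ B ≤ ker ψ}` in `Fz` (sub). (vi) `{z ∈ B} ⊆ {¬ B ≤ ker ψ}` if `ψ z = 1`. (vii) STA on `{z ∈ B}`: `univ`.
CASE 3: `b = a + 1`, `a = 0` (points, `A = ⊥`), `m ≥ 1`, `d = m - 1`. If `m = 1`: `Fl` has one element (`B = ⊤`), trivial as above. `m ≥ 2`: take `ψ, z`; STA (with `(0, 1)` in dimension `m - 1`; `d(m-1, 0, 1) + 1 = m - 1`) on `∅`: `{z ∉ B}` in `Fz` for all `z ≠ 0`. `{z ∈ B} ⊆ {z' ∉ B}` for `z' ` not in `F z` (`B` is a line), so STA on `{z ∈ B}` gives `univ`.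
CASE 4: `b = a + 1 = m`, `a ≥ 1` (hyperplanes `A`, `B = ⊤`), `d = a (b - a) = m - 1`: STB (with `(a-1, b-1)`, `d = m - 2`, `+ (m - a) = 1`) on `∅`: `{¬ A ≤ ker ψ}` in `Fz` for all `ψ ≠ 0`; `{A ≤ ker ψ} = {A = ker ψ} ⊆ {¬ A ≤ ker ψ'}` for `ψ'` not in `F ψ` (`m ≥ 2`), so STB on `{A ≤ ker ψ}` gives `univ`. -/
def GRS : Prop :=
  ∀ (F : Type) [Field F] [Finite F] (p : ℕ) [Fact p.Prime] [CharP F p] (V : Type)
    [AddCommGroup V] [Module F V] [FiniteDimensional F V] (a b : ℕ), a ≤ b → b ≤ a + 1 →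
    b ≤ finrank F V → Forced (PG p) (TG F V) (Fl F V a b)
      (Nat.card F ^ (b * (finrank F V - b) + a * (b - a)))

/-- **CNT**: the number of pairs. No hypotheses.
PROOF. `q = |F| ≥ 2`. If `a = b`: `X ↦ X.1.2` is injective into the `b`-dimensional subspaces, whose number `g` satisfies `(1 - 1/q - 1/q²) g ≤ q ^ (b (m - b))` (`Pool.Agent.Helper3.QGr.card_bound` in `Helper3/QGr/Count.lean`), and `1 - 1/q - 1/q² ≥ 1/4`. If `b = a + 1`: the number is `≤ g` times the maximal number of hyperplanes `A` of a `b`-dimensional space `B`, which is the same as for the `a`-dimensional subspaces of `B` (or: the number of lines of the dual) `≤ (q ^ b - 1)/(q - 1) ≤ 2 q ^ a`; one can use `card_bound` again for `B` (`a`-dimensional subspaces of `B`: `≤ 4 q ^ a`): this gives `16`, and `16` is what is asked. -/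
def CNT : Prop :=
  ∀ (F : Type) [Field F] [Fintype F] (V : Type) [AddCommGroup V] [Module F V]
    [FiniteDimensional F V] (a b : ℕ), a ≤ b → b ≤ a + 1 → b ≤ finrank F V →
    Nat.card (Fl F V a b) ≤ 16 * Fintype.card F ^ (b * (finrank F V - b) + a * (b - a))

/-- **CYC**: the cyclic factor. No hypotheses. PROOF. `ext ⊤` on `∅`: the group `Multiplicative (ZMod n)` is cyclic and transitive on `ZMod n`, the orbit of every point has `n` elements (`Nat.card_zmod`). -/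
def CYC : Prop :=
  ∀ n : ℕ, 1 ≤ n → Forced CY (Multiplicative (ZMod n)) (ZMod n) n

end Pool.Agent.Helper43.EV
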