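import Mathlib
import Pool.Agent.Helper43.EV.Goals

/-!
# Project EV: the sharper form of CNT
-/

set_option autoImplicit false

namespace Pool.Agent.Helper43.EV

open Module

/-- **CNTR**: the number of pairs, sharp form (replaces CNT). No hypotheses.
PROOF. Let `c = 1 - 1/q - 1/q²`, `0 < c ≤ 1` (`q ≥ 2`).  If `a = b`: `X ↦ X.1.2` is injective into the `b`-dimensional subspaces, `card_bound` (`Helper3/QGr/Count.lean`). If `b = a + 1`: the number of pairs is `∑_B |{A ≤ B, dim A = a}|`, by `card_bound` for the space `B` (of dimension `b`) `c * |{A ≤ B, dim A = a}| ≤ q ^ (a (b - a))` and `c * |{B}| ≤ q ^ (b (m - b))`; multiply. -/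
def CNTR : Prop :=
  ∀ (F : Type) [Field F] [Fintype F] (V : Type) [AddCommGroup V] [Module F V]
    [FiniteDimensional F V] (a b : ℕ), a ≤ b → b ≤ a + 1 → b ≤ finrank F V →
    (1 - 1 / (Fintype.card F : ℝ) - 1 / (Fintype.card F : ℝ) ^ 2) ^ (b - a + 1) *
      (Nat.card (Fl F V a b) : ℝ) ≤
      (Fintype.card F : ℝ) ^ (b * (finrank F V - b) + a * (b - a))

end Pool.Agent.Helper43.EV
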