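import Mathlib
import Pool.Agent.Helper43.EV.Goals
import Pool.Agent.Helper43.EV.Goals2

/-!
# Project EV: assembly
-/

set_option autoImplicit false

namespace Pool.Agent.Helper43.EV.Fin

open Module Pool.Agent.Helper43.EV Pool.Agent.Lead.Ev

lemma fz_cls {K K' : Cls} {G V : Type} [Group G] [MulAction G V]
    (hK : ∀ H : Subgroup G, K G H → K' G H) {h : ℕ} {A : Set V} (hA : Fz K G V h A) :
    Fz K' G V h A := by
  induction hA with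
  | empty => exact Fz.empty
  | sub h1 _ ih => exact Fz.sub h1 ih
  | tr g _ ih => exact Fz.tr g ih
  | ext H hH hinv _ ih => exact Fz.ext H (hK H hH) hinv ih

/-- products of `PR` and `OL` are in `OL` -/
lemma pr_ol (p r : ℕ) (G₁ G₂ : Type) [Group G₁] [Group G₂] (H₁ : Subgroup G₁)
    (H₂ : Subgroup G₂) (h₁ : PR p r G₁ H₁) (h₂ : OL p r G₂ H₂) :
    OL p r (G₁ × G₂) (H₁.prod H₂) := by
  obtain ⟨P₁, hP1, hP2, hP3, hP4⟩ := h₁
  obtain ⟨P₂, C₂, hPC, hCH, hCn, hPn, hr, ⟨s, hs, hcyc⟩, hp⟩ := h₂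
  refine ⟨P₁.prod P₂, P₁.prod C₂, ?_, ?_, ?_, ?_, ?_, ?_, ?_⟩
  · exact Subgroup.prod_mono le_rfl hPC
  · exact Subgroup.prod_mono hP1 hCH
  · rintro ⟨σ₁, σ₂⟩ hσ ⟨τ₁, τ₂⟩ hτ
    rw [Subgroup.mem_prod] at hσ hτ ⊢
    exact ⟨hP2 σ₁ hσ.1 τ₁ hτ.1, hCn σ₂ hσ.2 τ₂ hτ.2⟩
  · rintro ⟨σ₁, σ₂⟩ hσ ⟨τ₁, τ₂⟩ hτ
    rw [Subgroup.mem_prod] at hσ hτ ⊢
    exact ⟨hP2 σ₁ (hP1 hσ.1) τ₁ hτ.1, hPn σ₂ hσ.2 τ₂ hτ.2⟩
  · rintro ⟨σ₁, σ₂⟩ hσ
    rw [Subgroup.mem_prod] at hσ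
    obtain ⟨k₁, hk₁⟩ := hP4 σ₁ hσ.1
    obtain ⟨k₂, hk₂⟩ := hr σ₂ hσ.2
    refine ⟨k₁ + k₂, ?_⟩
    rw [Prod.pow_mk, Subgroup.mem_prod]
    refine ⟨?_, ?_⟩
    · show σ₁ ^ (r ^ (k₁ + k₂)) ∈ P₁
      rw [pow_add, pow_mul]; exact P₁.pow_mem hk₁ _
    · show σ₂ ^ (r ^ (k₁ + k₂)) ∈ C₂
      rw [add_comm, pow_add, pow_mul]; exact C₂.pow_mem hk₂ _
  · refine ⟨(1, s), ?_, ?_⟩
    · rw [Subgroup.mem_prod]; exact ⟨P₁.one_mem, hs⟩
    · rintro ⟨τ₁, τ₂⟩ hτ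
      rw [Subgroup.mem_prod] at hτ
      obtain ⟨k, hk⟩ := hcyc τ₂ hτ.2
      refine ⟨k, ?_⟩
      rw [Prod.pow_mk, Prod.mk_mul_mk, one_zpow, mul_one, Subgroup.mem_prod]
      exact ⟨hτ.1, hk⟩
  · rintro ⟨σ₁, σ₂⟩ hσ
    rw [Subgroup.mem_prod] at hσ
    obtain ⟨k₁, hk₁⟩ := hP3 σ₁ hσ.1
    obtain ⟨k₂, hk₂⟩ := hp σ₂ hσ.2
    refine ⟨k₁ + k₂, ?_⟩
    rw [Prod.pow_mk]
    apply Prod.ext
    · show σ₁ ^ (p ^ (k₁ + k₂)) = 1
      rw [pow_add, pow_mul, hk₁, one_pow]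
    · show σ₂ ^ (p ^ (k₁ + k₂)) = 1
      rw [add_comm, pow_add, pow_mul, hk₂, one_pow]

/-- a transitive group is forcing -/
lemma forced_trans (K : Cls) (G Ω : Type) [Group G] [MulAction G Ω] [Fintype Ω]
    (hK : K G ⊤) (htr : ∀ i j : Ω, ∃ g : G, g • i = j) : Forced K G Ω (Fintype.card Ω) := by
  have h1 : Fz K G Ω (Fintype.card Ω)
      (∅ ∪ {v | Fintype.card Ω ≤ (MulAction.orbit (⊤ : Subgroup G) v).ncard}) :=
    Fz.ext ⊤ hK (fun g _ v hv => absurd hv (Set.notMem_empty _)) Fz.empty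
  refine Fz.sub ?_ h1
  intro v _
  right
  show Fintype.card Ω ≤ (MulAction.orbit (⊤ : Subgroup G) v).ncard
  have h2 : MulAction.orbit (⊤ : Subgroup G) v = Set.univ := by
    apply Set.eq_univ_of_forall
    intro w
    obtain ⟨g, hg⟩ := htr v w
    exact ⟨⟨g, Subgroup.mem_top g⟩, hg⟩
  rw [h2, Set.ncard_univ, Nat.card_eq_fintype_card]

/-- the conditions for `⊤` in a subgroup -/
lemma ol_top {p r : ℕ} {G : Type} [Group G] {H C P : Subgroup G}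
    (hCH : C ≤ H) (hCn : ∀ σ ∈ H, ∀ τ ∈ C, σ * τ * σ⁻¹ ∈ C)
    (hHC : ∀ σ ∈ H, ∃ k : ℕ, σ ^ (r ^ k) ∈ C)
    (hPC : P ≤ C) (hPn : ∀ σ ∈ C, ∀ τ ∈ P, σ * τ * σ⁻¹ ∈ P)
    (hcyc : ∃ σ ∈ C, ∀ τ ∈ C, ∃ k : ℤ, τ * σ ^ k ∈ P)
    (hPp : ∀ σ ∈ P, ∃ k : ℕ, σ ^ (p ^ k) = 1) : OL p r H ⊤ := by
  refine ⟨P.subgroupOf H, C.subgroupOf H, ?_, le_top, ?_, ?_, ?_, ?_, ?_⟩
  · intro σ hσ
    rw [Subgroup.mem_subgroupOf] at hσ ⊢
    exact hPC hσ
  · intro σ _ τ hτ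
    rw [Subgroup.mem_subgroupOf] at hτ ⊢
    exact hCn _ σ.2 _ hτ
  · intro σ hσ τ hτ
    rw [Subgroup.mem_subgroupOf] at hσ hτ ⊢
    exact hPn _ hσ _ hτ
  · intro σ _
    obtain ⟨k, hk⟩ := hHC σ σ.2
    refine ⟨k, ?_⟩
    rw [Subgroup.mem_subgroupOf]
    exact hk
  · obtain ⟨s, hs, hk⟩ := hcyc
    refine ⟨⟨s, hCH hs⟩, ?_, ?_⟩
    · rw [Subgroup.mem_subgroupOf]; exact hs
    · intro τ hτ
      rw [Subgroup.mem_subgroupOf] at hτ
      obtain ⟨k, hk⟩ := hk τ hτ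
      refine ⟨k, ?_⟩
      rw [Subgroup.mem_subgroupOf]
      exact hk
  · intro σ hσ
    rw [Subgroup.mem_subgroupOf] at hσ
    obtain ⟨k, hk⟩ := hPp _ hσ
    exact ⟨k, Subtype.ext hk⟩

/-- elements of `TG` have determinant `1` -/
lemma det_TG {F V : Type} [Field F] [AddCommGroup V] [Module F V] [FiniteDimensional F V]
    (g : V ≃ₗ[F] V) (hg : g ∈ TG F V) : LinearEquiv.det g = 1 := by
  have h1 : TG F V ≤ (LinearEquiv.det (R := F) (M := V)).ker := by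
    rw [TG, Subgroup.closure_le]
    rintro g ⟨φ, v, h, rfl⟩
    rw [SetLike.mem_coe, MonoidHom.mem_ker]
    apply Units.ext
    rw [LinearEquiv.coe_det, LinearEquiv.transvection.coe_toLinearMap,
      LinearMap.transvection.det, h]
    simp
  exact MonoidHom.mem_ker.mp (h1 hg)

instance finFl (F V : Type) [Field F] [Finite F] [AddCommGroup V] [Module F V]
    [FiniteDimensional F V] (a b : ℕ) : Finite (Fl F V a b) := by
  have : Finite V := Module.finite_of_finite F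
  have : Finite (Submodule F V) :=
    Finite.of_injective (fun X : Submodule F V => (X : Set V)) SetLike.coe_injective
  infer_instance

/-- the bound for the depth -/
theorem main (hBND : BND) (hPRD : PRD) (hPIP : PIP) (hCLS : CLS) (hGRS : GRS)
    (p r : ℕ) (hp : p.Prime) (hr : r.Prime)
    {I : Type} [Fintype I] (F V : I → Type) [∀ i, Field (F i)] [∀ i, Fintype (F i)]
    [∀ i, AddCommGroup (V i)] [∀ i, Module (F i) (V i)] [∀ i, FiniteDimensional (F i) (V i)]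
    (hF : ∀ i, CharP (F i) p ∨ CharP (F i) r) (a b : I → ℕ) (hab : ∀ i, a i ≤ b i)
    (hba : ∀ i, b i ≤ a i + 1) (hbm : ∀ i, b i ≤ finrank (F i) (V i))
    (Ω : Type) [Fintype Ω] (H C P : Subgroup (Equiv.Perm Ω))
    (htrans : ∀ i j : Ω, ∃ σ ∈ H, σ i = j)
    (hCH : C ≤ H) (hCn : ∀ σ ∈ H, ∀ τ ∈ C, σ * τ * σ⁻¹ ∈ C)
    (hHC : ∀ σ ∈ H, ∃ k : ℕ, σ ^ (r ^ k) ∈ C)
    (hPC : P ≤ C) (hPn : ∀ σ ∈ C, ∀ τ ∈ P, σ * τ * σ⁻¹ ∈ P)
    (hcyc : ∃ σ ∈ C, ∀ τ ∈ C, ∃ k : ℤ, τ * σ ^ k ∈ P)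
    (hPp : ∀ σ ∈ P, ∃ k : ℕ, σ ^ (p ^ k) = 1)
    (f : (((∀ i, Fl (F i) (V i) (a i) (b i)) × Ω) → Bool) → Bool)
    (hmono : Monotone f) (hnc : ∃ x y, f x ≠ f y)
    (hinv : ∀ g : ∀ i, V i ≃ₗ[F i] V i,
      (∀ i, LinearEquiv.det (g i) = 1) → ∀ σ ∈ H,
      ∀ x y : ((∀ i, Fl (F i) (V i) (a i) (b i)) × Ω) → Bool,
        (∀ (X Y : ∀ i, Fl (F i) (V i) (a i) (b i)) (ω : Ω),
          (∀ i, (Y i).1.1 = (X i).1.1.map (g i : V i →ₗ[F i] V i) ∧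
            (Y i).1.2 = (X i).1.2.map (g i : V i →ₗ[F i] V i)) →
          y (Y, σ ω) = x (X, ω)) → f y = f x)
    (t : DTree ((∀ i, Fl (F i) (V i) (a i) (b i)) × Ω))
    (ht : ∀ x, t.eval x = f x) :
    (∏ i, Fintype.card (F i) ^ (b i * (finrank (F i) (V i) - b i) + a i * (b i - a i))) *
      Fintype.card Ω ≤ t.depth := by
  classical
  obtain ⟨hgood, hPp', hPr', -, -, -⟩ := hCLS p r hp hr
  have h1 : ∀ i, Forced (PR p r) (TG (F i) (V i))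
      (Fl (F i) (V i) (a i) (b i))
      (Fintype.card (F i) ^ (b i * (finrank (F i) (V i) - b i) + a i * (b i - a i))) := by
    intro i
    rcases hF i with hc | hc
    · have : Fact p.Prime := ⟨hp⟩
      have h2 := hGRS (F i) p (V i) (a i) (b i) (hab i) (hba i) (hbm i)
      rw [Nat.card_eq_fintype_card] at h2
      exact fz_cls (hPp' _) h2
    · have : Fact r.Prime := ⟨hr⟩
      have h2 := hGRS (F i) r (V i) (a i) (b i) (hab i) (hba i) (hbm i)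
      rw [Nat.card_eq_fintype_card] at h2
      exact fz_cls (hPr' _) h2
  have h2 := hPIP (PR p r) hgood I (fun i => TG (F i) (V i))
    (fun i => Fl (F i) (V i) (a i) (b i)) _ h1
  have h3 : Forced (OL p r) H Ω (Fintype.card Ω) := by
    apply forced_trans
    · exact ol_top hCH hCn hHC hPC hPn hcyc hPp
    · intro i j
      obtain ⟨σ, hσ, h⟩ := htrans i j
      exact ⟨⟨σ, hσ⟩, h⟩
  have h4 := hPRD (PR p r) (OL p r) (OL p r) (fun G₁ G₂ _ _ H₁ H₂ => pr_ol p r G₁ G₂ H₁ H₂)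
    _ _ _ _ _ _ h2 h3
  have : Fintype ((∀ i, Fl (F i) (V i) (a i) (b i)) × Ω) := Fintype.ofFinite _
  refine hBND p r hp hr _ _ _ h4 f hmono hnc ?_ t ht
  intro g x
  refine (hinv (fun i => (g.1 i : V i ≃ₗ[F i] V i))
    (fun i => det_TG _ (g.1 i).2) (g.2 : Equiv.Perm Ω) g.2.2 _ x ?_).symm
  intro X Y ω hY
  show x (Y, (g.2 : Equiv.Perm Ω) ω) = x (g.1 • X, g.2 • ω)
  congr 1
  apply Prod.ext
  · funext i
    exact Subtype.ext (Prod.ext (hY i).1 (hY i).2)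
  · rfl

/-- the number of variables -/
theorem count (hCNT : CNTR) {I : Type} [Fintype I] (F V : I → Type) [∀ i, Field (F i)]
    [∀ i, Fintype (F i)] [∀ i, AddCommGroup (V i)] [∀ i, Module (F i) (V i)]
    [∀ i, FiniteDimensional (F i) (V i)] (a b : I → ℕ) (hab : ∀ i, a i ≤ b i)
    (hba : ∀ i, b i ≤ a i + 1) (hbm : ∀ i, b i ≤ finrank (F i) (V i)) (Ω : Type) [Fintype Ω]
    (D : ℕ)
    (hD : (∏ i, Fintype.card (F i) ^ (b i * (finrank (F i) (V i) - b i) + a i * (b i - a i))) *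
      Fintype.card Ω ≤ D) :
    (∏ i, (1 - 1 / (Fintype.card (F i) : ℝ) - 1 / (Fintype.card (F i) : ℝ) ^ 2) ^
        (b i - a i + 1)) *
      (Nat.card ((∀ i, Fl (F i) (V i) (a i) (b i)) × Ω) : ℝ) ≤ (D : ℝ) := by
  rw [Nat.card_prod, Nat.card_pi, Nat.cast_mul, Nat.cast_prod, ← mul_assoc,
    ← Finset.prod_mul_distrib]
  have h1 : ∏ i, ((1 - 1 / (Fintype.card (F i) : ℝ) - 1 / (Fintype.card (F i) : ℝ) ^ 2) ^
        (b i - a i + 1) * (Nat.card (Fl (F i) (V i) (a i) (b i)) : ℝ)) ≤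
      ∏ i, (Fintype.card (F i) : ℝ) ^
        (b i * (finrank (F i) (V i) - b i) + a i * (b i - a i)) := by
    apply Finset.prod_le_prod
    · intro i _
      apply mul_nonneg _ (Nat.cast_nonneg _)
      apply pow_nonneg
      have hq : (2 : ℝ) ≤ (Fintype.card (F i) : ℝ) := by
        exact_mod_cast Fintype.one_lt_card
      have h2 : 1 / (Fintype.card (F i) : ℝ) ≤ 1 / 2 := by
        apply one_div_le_one_div_of_le (by norm_num) hq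
      have h3 : 1 / (Fintype.card (F i) : ℝ) ^ 2 ≤ 1 / 4 := by
        apply one_div_le_one_div_of_le (by norm_num)
        nlinarith
      linarith
    · intro i _
      exact hCNT (F i) (V i) (a i) (b i) (hab i) (hba i) (hbm i)
  have h2 : ((∏ i, (Fintype.card (F i) : ℝ) ^
      (b i * (finrank (F i) (V i) - b i) + a i * (b i - a i))) *
      (Fintype.card Ω : ℝ)) ≤ (D : ℝ) := by exact_mod_cast hD
  refine le_trans ?_ h2
  rw [Nat.card_eq_fintype_card (α := Ω)]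
  exact mul_le_mul_of_nonneg_right h1 (Nat.cast_nonneg _)

end Pool.Agent.Helper43.EV.Fin
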