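import Mathlib
import Pool.Agent.Helper43.EV.Goals

/-!
# Project EV: the geometries are forced
-/

set_option autoImplicit false

namespace Pool.Agent.Helper43.EV.GRS

open Module Pool.Agent.Helper43.EV
open Pool.Agent.Helper3.QGr (finrank_ker_add)

lemma triv (K : Cls) (G V : Type) [Group G] [MulAction G V] (hK : K G ⊥) (h : ℕ) (hh : h = 1) :
    Forced K G V h := by
  have h1 : Fz K G V h (∅ ∪ {v | h ≤ (MulAction.orbit (⊥ : Subgroup G) v).ncard}) :=
    Fz.ext ⊥ hK (fun g _ v hv => absurd hv (Set.notMem_empty _)) Fz.empty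
  refine Fz.sub ?_ h1
  intro v _
  right
  show h ≤ (MulAction.orbit (⊥ : Subgroup G) v).ncard
  have h2 : MulAction.orbit (⊥ : Subgroup G) v = {v} := by
    ext w
    rw [MulAction.mem_orbit_iff, Set.mem_singleton_iff]
    constructor
    · rintro ⟨g, rfl⟩
      have : (g : G) = 1 := Subgroup.mem_bot.mp g.2
      show (g : G) • v = v
      rw [this, one_smul]
    · rintro rfl
      exact ⟨1, one_smul _ _⟩
  rw [h2, Set.ncard_singleton, hh]

lemma pg_bot (p : ℕ) (G : Type) [Group G] : PG p G ⊥ := by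
  intro σ hσ
  refine ⟨0, ?_⟩
  rw [Subgroup.mem_bot.mp hσ, one_pow]

section

variable (F : Type) [Field F] [Finite F] (p : ℕ) [Fact p.Prime] [CharP F p]

/-- induction hypothesis -/
def IH (m : ℕ) : Prop :=
  ∀ (V : Type) [AddCommGroup V] [Module F V] [FiniteDimensional F V] (a b : ℕ), a ≤ b →
    b ≤ a + 1 → b ≤ m → finrank F V = m → Forced (PG p) (TG F V) (Fl F V a b)
      (Nat.card F ^ (b * (m - b) + a * (b - a)))

variable (V : Type) [AddCommGroup V] [Module F V] [FiniteDimensional F V]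

omit [Finite F] [FiniteDimensional F V] in
lemma exists_one {z : V} (hz : z ≠ 0) : ∃ ψ : Dual F V, ψ z = 1 := by
  by_contra hcon
  push Not at hcon
  apply hz
  rw [← Module.forall_dual_apply_eq_zero_iff F z]
  intro φ
  by_contra hφ
  apply hcon ((φ z)⁻¹ • φ)
  rw [LinearMap.smul_apply, smul_eq_mul, inv_mul_cancel₀ hφ]

omit [Finite F] [FiniteDimensional F V] in
lemma exists_pt {ψ : Dual F V} (hψ : ψ ≠ 0) : ∃ z : V, ψ z = 1 := by
  obtain ⟨x, hx⟩ : ∃ x, ψ x ≠ 0 := by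
    by_contra hcon
    push Not at hcon
    exact hψ (LinearMap.ext hcon)
  exact ⟨(ψ x)⁻¹ • x, by rw [map_smul, smul_eq_mul, inv_mul_cancel₀ hx]⟩

lemma exists_ker {ψ : Dual F V} (hψ : ψ ≠ 0) (hV : 2 ≤ finrank F V) :
    ∃ z : V, ψ z = 0 ∧ z ≠ 0 := by
  obtain ⟨z₀, hz₀⟩ := exists_pt F V hψ
  have h1 := finrank_ker_add ψ z₀ hz₀
  have h2 : LinearMap.ker ψ ≠ ⊥ := by
    intro h
    rw [h, finrank_bot] at h1
    omega
  obtain ⟨z, hz, hz0⟩ := Submodule.exists_mem_ne_zero_of_ne_bot h2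
  exact ⟨z, hz, hz0⟩

variable {m : ℕ}

lemma stepA (hA : STA) (hm : IH F p m) (hV : finrank F V = m + 1) (a b : ℕ) (hab : a ≤ b)
    (hba : b ≤ a + 1) (hbm : b ≤ m) (z : V) (hz : z ≠ 0) (S : Set (Fl F V a b))
    (hS : ∀ g : TG F V, (g : V ≃ₗ[F] V) z = z → ∀ X ∈ S, g • X ∈ S)
    (h : Fz (PG p) (TG F V) (Fl F V a b) (Nat.card F ^ (b * (m + 1 - b) + a * (b - a))) S) :
    Fz (PG p) (TG F V) (Fl F V a b) (Nat.card F ^ (b * (m + 1 - b) + a * (b - a)))
      (S ∪ {X | z ∉ X.1.2}) := by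
  obtain ⟨ψ, hψ⟩ := exists_one F V hz
  have h1 := finrank_ker_add ψ z hψ
  have h2 := hm (LinearMap.ker ψ) a b hab hba hbm (by omega)
  have h3 : b * (m + 1 - b) + a * (b - a) = b + (b * (m - b) + a * (b - a)) := by
    have : m + 1 - b = (m - b) + 1 := by omega
    rw [this]; ring
  rw [h3, pow_add] at h ⊢
  exact hA F p V ψ z hψ a b _ h2 S hS h

lemma stepB (hB : STB) (hm : IH F p m) (hV : finrank F V = m + 1) (a b : ℕ) (hab : a ≤ b)
    (hba : b ≤ a + 1) (hbm : b ≤ m) (ψ : Dual F V) (hψ : ψ ≠ 0)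
    (S : Set (Fl F V (a + 1) (b + 1)))
    (hS : ∀ g : TG F V, (∀ x, ψ ((g : V ≃ₗ[F] V) x) = ψ x) → ∀ X ∈ S, g • X ∈ S) (e : ℕ)
    (he : e = (b + 1) * (m + 1 - (b + 1)) + (a + 1) * (b + 1 - (a + 1)))
    (h : Fz (PG p) (TG F V) (Fl F V (a + 1) (b + 1)) (Nat.card F ^ e) S) :
    Fz (PG p) (TG F V) (Fl F V (a + 1) (b + 1)) (Nat.card F ^ e)
      (S ∪ {X | ¬ X.1.1 ≤ LinearMap.ker ψ}) := by
  obtain ⟨z, hz⟩ := exists_pt F V hψ
  have h1 := finrank_ker_add ψ z hz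
  have h2 := hm (LinearMap.ker ψ) a b hab hba hbm (by omega)
  have h3 : e = (finrank F V - (a + 1)) + (b * (m - b) + a * (b - a)) := by
    rw [he, hV]
    rcases Nat.lt_or_ge a b with hlt | hge
    · have hb : b = a + 1 := by omega
      subst hb
      obtain ⟨t, rfl⟩ : ∃ t, m = a + 1 + t := ⟨m - (a + 1), by omega⟩
      have e1 : a + 1 + t + 1 - (a + 1 + 1) = t := by omega
      have e2 : a + 1 + 1 - (a + 1) = 1 := by omega
      have e3 : a + 1 + t + 1 - (a + 1) = t + 1 := by omega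
      have e4 : a + 1 + t - (a + 1) = t := by omega
      have e5 : a + 1 - a = 1 := by omega
      rw [e1, e2, e3, e4, e5]; ring
    · have hb : b = a := by omega
      subst hb
      obtain ⟨t, rfl⟩ : ∃ t, m = b + t := ⟨m - b, by omega⟩
      have e1 : b + t + 1 - (b + 1) = t := by omega
      have e2 : b + 1 - (b + 1) = 0 := by omega
      have e4 : b + t - b = t := by omega
      have e5 : b - b = 0 := by omega
      rw [e1, e2, e4, e5]; ring
  rw [h3, pow_add] at h ⊢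
  exact hB F p V ψ z hz a b _ h2 S hS h

omit [Finite F] [FiniteDimensional F V] in
lemma inv_mem2 {a b : ℕ} {z : V} {g : TG F V} (hg : (g : V ≃ₗ[F] V) z = z) {X : Fl F V a b}
    (hX : z ∈ X.1.2) : z ∈ (g • X).1.2 := ⟨z, hX, hg⟩

omit [Finite F] [FiniteDimensional F V] in
lemma inv_mem1 {a b : ℕ} {z : V} {g : TG F V} (hg : (g : V ≃ₗ[F] V) z = z) {X : Fl F V a b}
    (hX : z ∈ X.1.1) : z ∈ (g • X).1.1 := ⟨z, hX, hg⟩

omit [Finite F] [FiniteDimensional F V] in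
lemma inv_le1 {a b : ℕ} {ψ : Dual F V} {g : TG F V} (hg : ∀ x, ψ ((g : V ≃ₗ[F] V) x) = ψ x)
    {X : Fl F V a b} (hX : X.1.1 ≤ LinearMap.ker ψ) : (g • X).1.1 ≤ LinearMap.ker ψ := by
  rintro _ ⟨x, hx, rfl⟩
  show ψ ((g : V ≃ₗ[F] V) x) = 0
  rw [hg]; exact hX hx

omit [Finite F] [FiniteDimensional F V] in
lemma inv_not_le2 {a b : ℕ} {ψ : Dual F V} {g : TG F V}
    (hg : ∀ x, ψ ((g : V ≃ₗ[F] V) x) = ψ x)
    {X : Fl F V a b} (hX : ¬ X.1.2 ≤ LinearMap.ker ψ) : ¬ (g • X).1.2 ≤ LinearMap.ker ψ := by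
  intro h
  apply hX
  intro x hx
  have h1 : (g : V ≃ₗ[F] V) x ∈ (g • X).1.2 := ⟨x, hx, rfl⟩
  have h2 : ψ ((g : V ≃ₗ[F] V) x) = 0 := h h1
  rw [hg] at h2
  exact h2

/-- case 1 -/
lemma case1 (hA : STA) (hB : STB) (hm : IH F p m) (hV : finrank F V = m + 1) (k : ℕ)
    (hk : k + 1 ≤ m) :
    Forced (PG p) (TG F V) (Fl F V (k + 1) (k + 1))
      (Nat.card F ^ ((k + 1) * (m + 1 - (k + 1)) + (k + 1) * (k + 1 - (k + 1)))) := by
  have : Nontrivial V := by
    apply Module.nontrivial_of_finrank_pos (R := F); omega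
  obtain ⟨z, hz⟩ := exists_ne (0 : V)
  obtain ⟨ψ, hψ⟩ := exists_one F V hz
  have hψ0 : ψ ≠ 0 := by rintro rfl; simp at hψ
  have h1 := stepB F p V hB hm hV k k le_rfl (by omega) (by omega) ψ hψ0 ∅
    (fun g _ X hX => absurd hX (Set.notMem_empty _)) _ rfl Fz.empty
  have h2 : Fz (PG p) (TG F V) (Fl F V (k + 1) (k + 1))
      (Nat.card F ^ ((k + 1) * (m + 1 - (k + 1)) + (k + 1) * (k + 1 - (k + 1))))
      {X | z ∈ X.1.2} := by
    refine Fz.sub ?_ h1
    intro X hX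
    right
    intro hle
    have e : X.1.1 = X.1.2 := Submodule.eq_of_le_of_finrank_eq X.2.1 (X.2.2.1.trans X.2.2.2.symm)
    rw [e] at hle
    have h3 : ψ z = 0 := hle hX
    rw [hψ] at h3
    exact one_ne_zero h3
  have h3 := stepA F p V hA hm hV (k + 1) (k + 1) le_rfl (by omega) hk z hz {X | z ∈ X.1.2}
    (fun g hg X hX => inv_mem2 F V hg hX) h2
  refine Fz.sub ?_ h3
  intro X _
  exact em _

/-- case 2 -/
lemma case2 (hA : STA) (hB : STB) (hm : IH F p m) (hV : finrank F V = m + 1) (a : ℕ)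
    (hk : a + 1 + 1 ≤ m) :
    Forced (PG p) (TG F V) (Fl F V (a + 1) (a + 1 + 1))
      (Nat.card F ^ ((a + 1 + 1) * (m + 1 - (a + 1 + 1)) +
        (a + 1) * (a + 1 + 1 - (a + 1)))) := by
  have : Nontrivial V := by
    apply Module.nontrivial_of_finrank_pos (R := F); omega
  -- (i)
  have h1 : ∀ ψ : Dual F V, ψ ≠ 0 → Fz (PG p) (TG F V) (Fl F V (a + 1) (a + 1 + 1))
      (Nat.card F ^ ((a + 1 + 1) * (m + 1 - (a + 1 + 1)) + (a + 1) * (a + 1 + 1 - (a + 1))))
      {X | ¬ X.1.1 ≤ LinearMap.ker ψ} := by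
    intro ψ hψ
    have := stepB F p V hB hm hV a (a + 1) (by omega) (by omega) (by omega) ψ hψ ∅
      (fun g _ X hX => absurd hX (Set.notMem_empty _)) _ rfl Fz.empty
    exact Fz.sub (fun X hX => Or.inr hX) this
  -- (ii)
  have h2 : ∀ z : V, z ≠ 0 → Fz (PG p) (TG F V) (Fl F V (a + 1) (a + 1 + 1))
      (Nat.card F ^ ((a + 1 + 1) * (m + 1 - (a + 1 + 1)) + (a + 1) * (a + 1 + 1 - (a + 1))))
      {X | z ∈ X.1.1} := by
    intro z hz
    obtain ⟨ψ, hψ⟩ := exists_one F V hz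
    have hψ0 : ψ ≠ 0 := by rintro rfl; simp at hψ
    refine Fz.sub ?_ (h1 ψ hψ0)
    intro X hX hle
    have h3 : ψ z = 0 := hle hX
    rw [hψ] at h3
    exact one_ne_zero h3
  -- (iii)
  have h3 : ∀ z : V, z ≠ 0 → Fz (PG p) (TG F V) (Fl F V (a + 1) (a + 1 + 1))
      (Nat.card F ^ ((a + 1 + 1) * (m + 1 - (a + 1 + 1)) + (a + 1) * (a + 1 + 1 - (a + 1))))
      ({X | z ∈ X.1.1} ∪ {X | z ∉ X.1.2}) := by
    intro z hz
    exact stepA F p V hA hm hV (a + 1) (a + 1 + 1) (by omega) (by omega) hk z hz _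
      (fun g hg X hX => inv_mem1 F V hg hX) (h2 z hz)
  obtain ⟨z₁, hz₁⟩ := exists_ne (0 : V)
  obtain ⟨ψ, hψ⟩ := exists_one F V hz₁
  have hψ0 : ψ ≠ 0 := by rintro rfl; simp at hψ
  -- (iv)
  have h4 : Fz (PG p) (TG F V) (Fl F V (a + 1) (a + 1 + 1))
      (Nat.card F ^ ((a + 1 + 1) * (m + 1 - (a + 1 + 1)) + (a + 1) * (a + 1 + 1 - (a + 1))))
      {X | X.1.1 ≤ LinearMap.ker ψ ∧ ¬ X.1.2 ≤ LinearMap.ker ψ} := by
    obtain ⟨z, hzψ, hz⟩ := exists_ker F V hψ0 (by omega)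
    refine Fz.sub ?_ (h3 z hz)
    rintro X ⟨hX1, hX2⟩
    by_cases hzB : z ∈ X.1.2
    · left
      have e1 : X.1.1 ≤ X.1.2 ⊓ LinearMap.ker ψ := le_inf X.2.1 hX1
      have e2 : X.1.2 ⊓ LinearMap.ker ψ < X.1.2 := by
        refine lt_of_le_of_ne inf_le_left ?_
        intro e
        exact hX2 (e ▸ inf_le_right)
      have e3 := Submodule.finrank_lt_finrank_of_lt e2
      rw [X.2.2.2] at e3
      have e4 : X.1.1 = X.1.2 ⊓ LinearMap.ker ψ := by
        apply Submodule.eq_of_le_of_finrank_le e1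
        rw [X.2.2.1]; omega
      show z ∈ X.1.1
      rw [e4]
      exact ⟨hzB, hzψ⟩
    · right; exact hzB
  -- (v)
  have h5 : Fz (PG p) (TG F V) (Fl F V (a + 1) (a + 1 + 1))
      (Nat.card F ^ ((a + 1 + 1) * (m + 1 - (a + 1 + 1)) + (a + 1) * (a + 1 + 1 - (a + 1))))
      {X | ¬ X.1.2 ≤ LinearMap.ker ψ} := by
    have := stepB F p V hB hm hV a (a + 1) (by omega) (by omega) (by omega) ψ hψ0
      {X | X.1.1 ≤ LinearMap.ker ψ ∧ ¬ X.1.2 ≤ LinearMap.ker ψ}
      (fun g hg X hX => ⟨inv_le1 F V hg hX.1, inv_not_le2 F V hg hX.2⟩) _ rfl h4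
    refine Fz.sub ?_ this
    intro X hX
    by_cases h : X.1.1 ≤ LinearMap.ker ψ
    · left; exact ⟨h, hX⟩
    · right; exact h
  -- (vi)
  have h6 : Fz (PG p) (TG F V) (Fl F V (a + 1) (a + 1 + 1))
      (Nat.card F ^ ((a + 1 + 1) * (m + 1 - (a + 1 + 1)) + (a + 1) * (a + 1 + 1 - (a + 1))))
      {X | z₁ ∈ X.1.2} := by
    refine Fz.sub ?_ h5
    intro X hX hle
    have h3 : ψ z₁ = 0 := hle hX
    rw [hψ] at h3
    exact one_ne_zero h3
  -- (vii)
  have h7 := stepA F p V hA hm hV (a + 1) (a + 1 + 1) (by omega) (by omega) hk z₁ hz₁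
      {X | z₁ ∈ X.1.2}
      (fun g hg X hX => inv_mem2 F V hg hX) h6
  refine Fz.sub ?_ h7
  intro X _
  exact em _

/-- case 3 -/
lemma case3 (hA : STA) (hm : IH F p m) (hV : finrank F V = m + 1) (hk : 1 ≤ m) :
    Forced (PG p) (TG F V) (Fl F V 0 1)
      (Nat.card F ^ (1 * (m + 1 - 1) + 0 * (1 - 0))) := by
  have : Nontrivial V := by
    apply Module.nontrivial_of_finrank_pos (R := F); omega
  have h1 : ∀ z : V, z ≠ 0 → Fz (PG p) (TG F V) (Fl F V 0 1)
      (Nat.card F ^ (1 * (m + 1 - 1) + 0 * (1 - 0))) {X | z ∉ X.1.2} := by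
    intro z hz
    have := stepA F p V hA hm hV 0 1 (by omega) (by omega) hk z hz ∅
      (fun g _ X hX => absurd hX (Set.notMem_empty _)) Fz.empty
    exact Fz.sub (fun X hX => Or.inr hX) this
  obtain ⟨z, hz⟩ := exists_ne (0 : V)
  obtain ⟨ψ, hψ⟩ := exists_one F V hz
  have hψ0 : ψ ≠ 0 := by rintro rfl; simp at hψ
  obtain ⟨z', hz'ψ, hz'⟩ := exists_ker F V hψ0 (by omega)
  have h2 : Fz (PG p) (TG F V) (Fl F V 0 1)
      (Nat.card F ^ (1 * (m + 1 - 1) + 0 * (1 - 0))) {X | z ∈ X.1.2} := by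
    refine Fz.sub ?_ (h1 z' hz')
    intro X hX hX'
    -- both `z` and `z'` are in the line `X.1.2`
    have e0 : finrank F X.1.2 = 1 := X.2.2.2
    have e1 : F ∙ z ≤ X.1.2 := by
      rw [Submodule.span_singleton_le_iff_mem]; exact hX
    have e2 : F ∙ z = X.1.2 := by
      apply Submodule.eq_of_le_of_finrank_le e1
      rw [e0, finrank_span_singleton hz]
    have e3 : z' ∈ F ∙ z := by rw [e2]; exact hX'
    rw [Submodule.mem_span_singleton] at e3
    obtain ⟨c, hc⟩ := e3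
    have e4 : c = 0 := by
      have := hz'ψ
      rw [← hc, map_smul, hψ, smul_eq_mul, mul_one] at this
      exact this
    rw [e4, zero_smul] at hc
    exact hz' hc.symm
  have h3 := stepA F p V hA hm hV 0 1 (by omega) (by omega) hk z hz {X | z ∈ X.1.2}
      (fun g hg X hX => inv_mem2 F V hg hX) h2
  refine Fz.sub ?_ h3
  intro X _
  exact em _

/-- case 4 -/
lemma case4 (hB : STB) (a : ℕ) (hm : IH F p (a + 1)) (hV : finrank F V = a + 1 + 1) :
    Forced (PG p) (TG F V) (Fl F V (a + 1) (a + 1 + 1))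
      (Nat.card F ^ ((a + 1 + 1) * (a + 1 + 1 - (a + 1 + 1)) +
        (a + 1) * (a + 1 + 1 - (a + 1)))) := by
  have : Nontrivial V := by
    apply Module.nontrivial_of_finrank_pos (R := F); omega
  have h1 : ∀ ψ : Dual F V, ψ ≠ 0 → Fz (PG p) (TG F V) (Fl F V (a + 1) (a + 1 + 1))
      (Nat.card F ^ ((a + 1 + 1) * (a + 1 + 1 - (a + 1 + 1)) +
        (a + 1) * (a + 1 + 1 - (a + 1))))
      {X | ¬ X.1.1 ≤ LinearMap.ker ψ} := by
    intro ψ hψ
    have := stepB F p V hB hm hV a (a + 1) (by omega) (by omega) (by omega) ψ hψ ∅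
      (fun g _ X hX => absurd hX (Set.notMem_empty _)) _ rfl Fz.empty
    exact Fz.sub (fun X hX => Or.inr hX) this
  obtain ⟨z, hz⟩ := exists_ne (0 : V)
  obtain ⟨ψ, hψ⟩ := exists_one F V hz
  have hψ0 : ψ ≠ 0 := by rintro rfl; simp at hψ
  obtain ⟨z', hz'ψ, hz'⟩ := exists_ker F V hψ0 (by omega)
  obtain ⟨ψ', hψ'⟩ := exists_one F V hz'
  have hψ'0 : ψ' ≠ 0 := by rintro rfl; simp at hψ'
  have h2 : Fz (PG p) (TG F V) (Fl F V (a + 1) (a + 1 + 1))
      (Nat.card F ^ ((a + 1 + 1) * (a + 1 + 1 - (a + 1 + 1)) +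
        (a + 1) * (a + 1 + 1 - (a + 1))))
      {X | X.1.1 ≤ LinearMap.ker ψ} := by
    refine Fz.sub ?_ (h1 ψ' hψ'0)
    intro X hX hX'
    have e1 := finrank_ker_add ψ z hψ
    have e2 : X.1.1 = LinearMap.ker ψ := by
      apply Submodule.eq_of_le_of_finrank_le hX
      rw [X.2.2.1]; omega
    have e3 : z' ∈ X.1.1 := by rw [e2]; exact hz'ψ
    have e4 : ψ' z' = 0 := hX' e3
    rw [hψ'] at e4
    exact one_ne_zero e4
  have h3 := stepB F p V hB hm hV a (a + 1) (by omega) (by omega) (by omega) ψ hψ0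
      {X | X.1.1 ≤ LinearMap.ker ψ} (fun g hg X hX => inv_le1 F V hg hX) _ rfl h2
  refine Fz.sub ?_ h3
  intro X _
  exact em _

lemma all (hA : STA) (hB : STB) : ∀ m : ℕ, IH F p m := by
  intro m
  induction m with
  | zero =>
    intro V _ _ _ a b hab hba hbm hV
    apply triv (PG p) _ _ (pg_bot p _)
    have hb : b = 0 := by omega
    have ha : a = 0 := by omega
    subst hb ha
    simp
  | succ m hm =>
    intro V _ _ _ a b hab hba hbm hV
    rcases Nat.lt_or_ge a b with hlt | hge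
    · have hb : b = a + 1 := by omega
      subst hb
      rcases Nat.eq_zero_or_pos a with ha | ha
      · subst ha
        rcases Nat.eq_zero_or_pos m with h0 | h0
        · subst h0
          apply triv (PG p) _ _ (pg_bot p _)
          simp
        · exact case3 F p V hA hm hV h0
      · obtain ⟨a, rfl⟩ : ∃ a', a = a' + 1 := ⟨a - 1, by omega⟩
        rcases Nat.lt_or_ge m (a + 1 + 1) with h0 | h0
        · have h1 : m = a + 1 := by omega
          subst h1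
          exact case4 F p V hB a hm hV
        · exact case2 F p V hA hB hm hV a h0
    · have hb : b = a := by omega
      subst hb
      rcases Nat.eq_zero_or_pos b with ha | ha
      · subst ha
        apply triv (PG p) _ _ (pg_bot p _)
        simp
      · obtain ⟨k, rfl⟩ : ∃ k, b = k + 1 := ⟨b - 1, by omega⟩
        rcases Nat.lt_or_ge m (k + 1) with h0 | h0
        · have h1 : k = m := by omega
          subst h1
          apply triv (PG p) _ _ (pg_bot p _)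
          simp
        · exact case1 F p V hA hB hm hV k h0

end

theorem t (hA : STA) (hB : STB) : GRS := by
  intro F _ _ p _ _ V _ _ _ a b hab hba hbm
  exact all F p hA hB (finrank F V) V a b hab hba hbm rfl

end Pool.Agent.Helper43.EV.GRS
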