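import Mathlib
import Pool.Agent.Helper43.EV.Goals
import Pool.Agent.Helper43.EV.Goals2
import Pool.Agent.Helper43.EV.Fin
import Pool.Agent.Helper43.EV.GRS
import Pool.Agent.Helper59.EV.BND
import Pool.Agent.Helper8.EV.PRD
import Pool.Agent.Helper79.EV.EQV
import Pool.Agent.Helper91.EV.PIP
import Pool.Agent.Helper34.EV.FIB
import Pool.Agent.Helper57.EV.CLS
import Pool.Agent.Helper36.EV.LIN
import Pool.Agent.Helper72.EV.ORA
import Pool.Agent.Helper26.EV.ORB
import Pool.Agent.Helper7.EV.PIA
import Pool.Agent.Helper23.EV.PIB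
import Pool.Agent.Helper17.EV.STA
import Pool.Agent.Helper46.EV.STB
import Pool.Agent.Helper58.EV.CNTR

/-!
# Project EV: all packets together
-/

set_option autoImplicit false

namespace Pool.Agent.Helper43.EV.All

open Pool.Agent.Helper43.EV

theorem bnd : BND := Pool.Agent.Helper59.EV.BND.t
theorem prd : PRD := Pool.Agent.Helper8.EV.PRD.t
theorem eqv : EQV := Pool.Agent.Helper79.EV.EQV.t
theorem pip : PIP := Pool.Agent.Helper91.EV.PIP.t prd eqv
theorem fib : FIB := Pool.Agent.Helper34.EV.FIB.t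
theorem cls : CLS := Pool.Agent.Helper57.EV.CLS.t
theorem lin : LIN := Pool.Agent.Helper36.EV.LIN.t
theorem ora : ORA := Pool.Agent.Helper72.EV.ORA.t
theorem orb : ORB := Pool.Agent.Helper26.EV.ORB.t
theorem pia : PIA := Pool.Agent.Helper7.EV.PIA.t
theorem pib : PIB := Pool.Agent.Helper23.EV.PIB.t
theorem sta : STA := Pool.Agent.Helper17.EV.STA.t fib cls lin ora pia
theorem stb : STB := Pool.Agent.Helper46.EV.STB.t fib cls lin orb pib
theorem grs : GRS := Pool.Agent.Helper43.EV.GRS.t sta stb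
theorem cnt : CNTR := Pool.Agent.Helper58.EV.CNTR.t

end Pool.Agent.Helper43.EV.All
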